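import Pool.Agent.N437.SPC.Stm3

/-! # Project SPC (helper437), part GAPA: assembly for almost all sets (helper953) -/

set_option autoImplicit false

namespace Pool.Agent.N953.SPC

open Finset Pool.Agent.N437.SPC
open scoped Pointwise

theorem logcard {x : ℕ} {y : ℝ} (_hy : 0 ≤ y) (h : Real.log x ≤ y) : (x : ℝ) ≤ Real.exp y := by
  rcases Nat.eq_zero_or_pos x with h0 | h0
  · subst h0
    simp only [Nat.cast_zero]
    exact (Real.exp_pos y).le
  · rwa [← Real.log_le_iff_le_exp (by exact_mod_cast h0)]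

section

variable {Γ : Type} [AddCommGroup Γ] [DecidableEq Γ]

/-- the final count -/
theorem count (h2 : S_CNT) (c0 : ℝ) (n : ℕ) (K Q : ℝ) (hc0 : 0 < c0) (hc01 : c0 ≤ 1 / 2)
    (hQ : 1 ≤ Q) (hQK : Q ≤ K) (hN16 : (16 : ℝ) ≤ n) (hNc : (16 : ℝ) ≤ (n : ℝ) ^ (c0 / 2))
    (X : Finset Γ) (F : Finset (Finset Γ)) (𝒜 : Set (Finset Γ))
    (hX : Real.log X.card ≤ (n : ℝ) ^ (c0 / 2))
    (hF : (F.card : ℝ) ≤ Real.exp ((n : ℝ) ^ (1 - c0)))
    (h𝒜 : ∀ A ∈ 𝒜, A ⊆ X ∧ A.card = n ∧ ∃ Y ∈ F, ((A \ Y).card : ℝ) ≤ (n : ℝ) ^ (1 - c0) ∧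
      (Y.card : ℝ) ≤ K * n / Q) :
    (𝒜.ncard : ℝ) ≤ (2 * Real.exp 2 * K / Q) ^ n := by
  classical
  have hQ0 : 0 < Q := by linarith
  have hK0 : 0 < K := by linarith
  rcases 𝒜.eq_empty_or_nonempty with h0 | ⟨A₀, hA₀⟩
  · rw [h0]
    simp only [Set.ncard_empty, Nat.cast_zero]
    positivity
  generalize hNdef : (n : ℝ) = N at hN16 hNc hX hF h𝒜 ⊢
  have hN0 : 0 < N := by linarith
  have hN1 : 1 ≤ N := by linarith
  have hn0 : 0 < n := by
    have : (0 : ℝ) < n := by rw [hNdef]; exact hN0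
    exact_mod_cast this
  set a : ℝ := N ^ (1 - c0) with ha
  have ha1 : 1 ≤ a := Real.one_le_rpow hN1 (by linarith)
  set b : ℝ := N ^ (c0 / 2) with hb
  have hab : N = a * b * b := by
    rw [ha, hb, ← Real.rpow_add hN0, ← Real.rpow_add hN0]
    have : 1 - c0 + c0 / 2 + c0 / 2 = 1 := by ring
    rw [this, Real.rpow_one]
  have haN : 256 * a ≤ N := by
    have h1 : 256 ≤ b * b := by nlinarith
    calc 256 * a ≤ (b * b) * a := mul_le_mul_of_nonneg_right h1 (by linarith)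
      _ = N := by rw [hab]; ring
  set D : ℕ := ⌊a⌋₊ + 1 with hD
  have hD1 : (D : ℝ) ≤ a + 1 := by
    rw [hD]
    push_cast
    have := Nat.floor_le (a := a) (by linarith)
    linarith
  have hDn : 2 * D ≤ n := by
    have : ((2 * D : ℕ) : ℝ) ≤ n := by
      push_cast
      rw [hNdef]
      linarith
    exact_mod_cast this
  have hle : ∀ k : ℕ, (k : ℝ) ≤ a → k ≤ D := by
    intro k hk
    have h3 : k ≤ ⌊a⌋₊ := Nat.le_floor hk
    omega
  set M : ℝ := K * N / Q with hM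
  have hn2M : (n : ℝ) ≤ 2 * M := by
    obtain ⟨_, hcard, Y, _, h3, h4⟩ := h𝒜 A₀ hA₀
    have h5 := hle _ h3
    have h6 : n ≤ (A₀ \ Y).card + Y.card := by
      rw [← hcard]
      have := card_le_card (s := A₀) (t := (A₀ \ Y) ∪ Y) (by
        intro x hx
        by_cases hxY : x ∈ Y <;> simp [hx, hxY])
      exact this.trans (card_union_le _ _)
    have h7 : (n : ℝ) ≤ (D : ℝ) + M := by
      have h8 : (n : ℝ) ≤ (A₀ \ Y).card + Y.card := by exact_mod_cast h6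
      have h9 : ((A₀ \ Y).card : ℝ) ≤ D := by exact_mod_cast h5
      linarith
    have h8 : 2 * (D : ℝ) ≤ n := by exact_mod_cast hDn
    linarith
  have hM0 : 0 < M := by positivity
  set F' : Finset (Finset Γ) := F.filter fun Y => (Y.card : ℝ) ≤ M with hF'
  have h3 := h2 X F' n D M hn0 hDn (fun Y hY => (mem_filter.1 hY).2) hn2M
  have h4 : 𝒜 ⊆ ↑((X.powersetCard n).filter (fun A => ∃ Y ∈ F', (A \ Y).card ≤ D)) := by
    intro A hA
    obtain ⟨h5, h6, Y, hY, h7, h8⟩ := h𝒜 A hA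
    rw [mem_coe, mem_filter, mem_powersetCard]
    exact ⟨⟨h5, h6⟩, Y, mem_filter.2 ⟨hY, h8⟩, hle _ h7⟩
  have h5 : (𝒜.ncard : ℝ) ≤
      (((X.powersetCard n).filter (fun A => ∃ Y ∈ F', (A \ Y).card ≤ D)).card : ℝ) := by
    have := Set.ncard_le_ncard h4 (finite_toSet _)
    rw [Set.ncard_coe_finset] at this
    exact_mod_cast this
  refine h5.trans (h3.trans ?_)
  -- the estimate
  have e1 : (F'.card : ℝ) ≤ Real.exp a := by
    refine le_trans ?_ hF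
    exact_mod_cast card_le_card (filter_subset _ _)
  have hX0 : (0 : ℝ) ≤ (X.card : ℝ) + 1 := by
    have := Nat.cast_nonneg (α := ℝ) X.card
    linarith
  have e2 : ((X.card : ℝ) + 1) ^ D ≤ Real.exp (N / 4) := by
    have h6 : (X.card : ℝ) + 1 ≤ Real.exp (2 * b) := by
      have h7 : (X.card : ℝ) ≤ Real.exp b := logcard (by positivity) hX
      have h8 : Real.exp (2 * b) = Real.exp b * Real.exp b := by
        rw [← Real.exp_add]
        ring_nf
      have h9 : 2 ≤ Real.exp b := by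
        have := Real.add_one_le_exp b
        linarith
      rw [h8]
      nlinarith
    have h7 := pow_le_pow_left₀ hX0 h6 D
    rw [← Real.exp_nat_mul] at h7
    refine h7.trans (Real.exp_le_exp.2 ?_)
    have h9 : (D : ℝ) ≤ 2 * a := by linarith
    calc (D : ℝ) * (2 * b) ≤ (2 * a) * (2 * b) :=
          mul_le_mul_of_nonneg_right h9 (by positivity)
      _ ≤ N / 4 := by
        rw [hab]
        have : 0 < a * b := by positivity
        nlinarith
  have e3 : ((n : ℝ) + 1) ≤ Real.exp (N / 2) := by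
    have h6 := Real.quadratic_le_exp_of_nonneg (x := N / 2) (by linarith)
    rw [hNdef]
    nlinarith
  have e4 : (F'.card : ℝ) * ((X.card : ℝ) + 1) ^ D * (n + 1) ≤ Real.exp N := by
    calc (F'.card : ℝ) * ((X.card : ℝ) + 1) ^ D * (n + 1)
        ≤ Real.exp a * Real.exp (N / 4) * Real.exp (N / 2) := by
          refine mul_le_mul (mul_le_mul e1 e2 (pow_nonneg hX0 D) (Real.exp_pos _).le) e3
            (by have := Nat.cast_nonneg (α := ℝ) n; linarith)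
            (mul_nonneg (Real.exp_pos _).le (Real.exp_pos _).le)
      _ = Real.exp (a + N / 4 + N / 2) := by
        rw [Real.exp_add, Real.exp_add]
      _ ≤ Real.exp N := Real.exp_le_exp.2 (by linarith)
  have e5 : Real.exp N * (2 * Real.exp 1 * M / n) ^ n = (2 * Real.exp 2 * K / Q) ^ n := by
    have h6 : Real.exp N = Real.exp 1 ^ n := by
      rw [← Real.exp_nat_mul, mul_one, hNdef]
    rw [h6, ← mul_pow, hNdef]
    congr 1
    have h8 : Real.exp 2 = Real.exp 1 * Real.exp 1 := by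
      rw [← Real.exp_add]
      norm_num
    rw [hM, h8]
    field_simp
  calc (F'.card : ℝ) * ((X.card : ℝ) + 1) ^ D * (n + 1) * (2 * Real.exp 1 * M / n) ^ n
      ≤ Real.exp N * (2 * Real.exp 1 * M / n) ^ n :=
        mul_le_mul_of_nonneg_right e4 (by positivity)
    _ = _ := e5

theorem cnt_le (y : Γ) (Y W : Finset Γ) : cnt (fun a b => a + b) y Y W ≤ W.card := by
  unfold cnt
  refine card_le_card_of_injOn (fun u => y + u) ?_ ?_
  · intro u hu
    have hu' : u ∈ Y.filter fun u => y + u ∈ W := hu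
    exact (mem_filter.1 hu').2
  · intro u _ v _ huv
    exact add_left_cancel huv

theorem gd_sub (Y W : Finset Γ) : gd (fun a b => a + b) Y W ⊆ Y := filter_subset _ _

theorem gd_bound {Y W : Finset Γ} :
    (gd (fun a b => a + b) Y W).Nonempty → 97 * Y.card ≤ 100 * W.card := by
  rintro ⟨g, hg⟩
  unfold gd at hg
  rw [mem_filter] at hg
  exact hg.2.trans (Nat.mul_le_mul_left _ (cnt_le g Y W))

/-- large containers are structured -/
theorem claim (h3 : S_TRIG) (n : ℕ) (K Q : ℝ) (hn : 0 < n) (hQ : 1 ≤ Q) (hQK : Q ≤ K)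
    (Y W : Finset Γ) (hW : (W.card : ℝ) ≤ K * n)
    (hG : 99 * Y.card ≤ 100 * (gd (fun a b => a + b) Y W).card) (hY : K * n / Q < Y.card) :
    ((gd (fun a b => a + b) Y W + gd (fun a b => a + b) Y W).card : ℝ) ≤
      2 * Q ^ 3 * (gd (fun a b => a + b) Y W).card ∧
      ((gd (fun a b => a + b) Y W).card : ℝ) ≤ 2 * K * n := by
  have hT := h3 Y W hG
  have hgb := gd_bound (Y := Y) (W := W)
  have hGY := card_le_card (gd_sub Y W)
  generalize gd (fun a b => a + b) Y W = G at hT hgb hGY hG ⊢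
  have hn' : (0 : ℝ) < n := by exact_mod_cast hn
  have hQ0 : 0 < Q := by linarith
  have hK0 : 0 < K := by linarith
  have hY0 : (0 : ℝ) < Y.card := lt_of_le_of_lt (by positivity) hY
  have hG' : 99 * (Y.card : ℝ) ≤ 100 * G.card := by exact_mod_cast hG
  have hG0 : (0 : ℝ) < G.card := by linarith
  have hGne : G.Nonempty := by
    rw [← card_pos]
    exact_mod_cast hG0
  have hYW : 97 * (Y.card : ℝ) ≤ 100 * W.card := by exact_mod_cast hgb hGne
  have hGY' : (G.card : ℝ) ≤ Y.card := by exact_mod_cast hGY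
  have hKn : 0 < K * n := by positivity
  have hWY : (W.card : ℝ) ≤ Q * Y.card := by
    rw [div_lt_iff₀ hQ0] at hY
    linarith
  have hT' : 9 * (Y.card : ℝ) ^ 2 * (G + G).card ≤ 10 * (W.card : ℝ) ^ 3 := by exact_mod_cast hT
  constructor
  · have h1 : (W.card : ℝ) ^ 3 ≤ (Q * Y.card) ^ 3 := pow_le_pow_left₀ (Nat.cast_nonneg _) hWY 3
    have h2 : (Y.card : ℝ) ^ 2 * (9 * (G + G).card) ≤ (Y.card : ℝ) ^ 2 * (10 * Q ^ 3 * Y.card) := by
      have h3 : 10 * (Q * (Y.card : ℝ)) ^ 3 = (Y.card : ℝ) ^ 2 * (10 * Q ^ 3 * Y.card) := by ring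
      linarith
    have h3 : 9 * ((G + G).card : ℝ) ≤ 10 * Q ^ 3 * Y.card := le_of_mul_le_mul_left h2 (by positivity)
    have h4 : Q ^ 3 * (99 * (Y.card : ℝ)) ≤ Q ^ 3 * (100 * G.card) :=
      mul_le_mul_of_nonneg_left hG' (by positivity)
    have h5 : 0 ≤ Q ^ 3 * (G.card : ℝ) := by positivity
    linarith
  · linarith

end

/-- the assembly, for an arbitrary property `P` of sets which is implied by the structure of a
container -/
theorem asm (h1 : S_CT) (h2 : S_CNT) (h3 : S_TRIG) (δ : ℝ) (hδ : 0 < δ) :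
    ∃ c : ℝ, 0 < c ∧ ∃ n₀ : ℕ,
    ∀ {Γ : Type} [AddCommGroup Γ] [DecidableEq Γ] (X : Finset Γ) (n : ℕ) (K Q : ℝ),
    n₀ ≤ n → Real.log X.card ≤ (n : ℝ) ^ c → 1 ≤ Q → Q ≤ K → K ≤ (n : ℝ) ^ (1 - δ) →
    ∀ P : Finset Γ → Prop, (∀ A G : Finset Γ, 1 ≤ n → A.card = n → ((A + A).card : ℝ) ≤ K * n →
      n ≤ 2 * (A ∩ G).card → ((G + G).card : ℝ) ≤ 2 * Q ^ 3 * G.card →
      (G.card : ℝ) ≤ 2 * K * n → P A) →
    ({A : Finset Γ | A ⊆ X ∧ A.card = n ∧ ((A + A).card : ℝ) ≤ K * n ∧ ¬ P A}.ncard : ℝ) ≤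
      (2 * Real.exp 2 * K / Q) ^ n := by
  obtain ⟨c0, hc0, hc01, n1, hCT⟩ := h1 1 δ hδ
  refine ⟨c0 / 2, by positivity, ?_⟩
  have hlim : ∀ y : ℝ, 0 < y → Filter.Tendsto (fun n : ℕ => (n : ℝ) ^ y) Filter.atTop
      Filter.atTop := fun y hy => (tendsto_rpow_atTop hy).comp tendsto_natCast_atTop_atTop
  have hev : ∀ᶠ n : ℕ in Filter.atTop, n1 ≤ n ∧ 16 ≤ n ∧ (16 : ℝ) ≤ (n : ℝ) ^ (c0 / 2) := by
    filter_upwards [Filter.eventually_ge_atTop n1, Filter.eventually_ge_atTop 16,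
      (hlim (c0 / 2) (by positivity)).eventually_ge_atTop 16] with n a1 a2 a3
    exact ⟨a1, a2, a3⟩
  obtain ⟨n₀, hn₀⟩ := Filter.eventually_atTop.1 hev
  refine ⟨n₀, ?_⟩
  intro Γ _ _ X n K Q hn hX hQ hQK hK P hP
  obtain ⟨b1, b2, hNc⟩ := hn₀ n hn
  have hN16 : (16 : ℝ) ≤ n := by exact_mod_cast b2
  have hN1 : (1 : ℝ) ≤ n := by linarith
  have hN0 : (0 : ℝ) < n := by linarith
  have hmono : ∀ a b : ℝ, a ≤ b → (n : ℝ) ^ a ≤ (n : ℝ) ^ b := fun a b hab =>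
    Real.rpow_le_rpow_of_exponent_le hN1 hab
  obtain ⟨F, hF1, hF2, hF3⟩ := hCT (fun _ a b => a + b) X n b1
    (hX.trans (hmono _ _ (by linarith))) (fun _ => ⟨fun x _ y _ => add_comm x y,
      fun x _ y _ z _ h => add_left_cancel h⟩)
  have hhalf : 2 * (n : ℝ) ^ (1 - c0) ≤ n := by
    have h4 : (n : ℝ) = (n : ℝ) ^ (1 - c0) * (n : ℝ) ^ (c0 / 2) * (n : ℝ) ^ (c0 / 2) := by
      rw [← Real.rpow_add hN0, ← Real.rpow_add hN0]
      have : 1 - c0 + c0 / 2 + c0 / 2 = 1 := by ring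
      rw [this, Real.rpow_one]
    have h5 : 0 < (n : ℝ) ^ (1 - c0) := Real.rpow_pos_of_pos hN0 _
    have h6 : 2 * (n : ℝ) ^ (1 - c0) ≤ (n : ℝ) ^ (1 - c0) * ((n : ℝ) ^ (c0 / 2) * (n : ℝ) ^ (c0 / 2)) := by
      have h7 : 2 ≤ (n : ℝ) ^ (c0 / 2) * (n : ℝ) ^ (c0 / 2) := by nlinarith
      nlinarith
    calc 2 * (n : ℝ) ^ (1 - c0) ≤ (n : ℝ) ^ (1 - c0) * ((n : ℝ) ^ (c0 / 2) * (n : ℝ) ^ (c0 / 2)) := h6
      _ = n := by rw [← mul_assoc, ← h4]
  refine count h2 c0 n K Q hc0 hc01 hQ hQK hN16 hNc X F _ hX hF1 ?_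
  rintro A ⟨hAX, hAn, hAm, hAP⟩
  have hWd : image₂ (fun a b : Γ => a + b) A A = A + A := rfl
  have hK2 : K * n ≤ (n : ℝ) ^ (2 - δ) := by
    have h4 : (n : ℝ) ^ (2 - δ) = (n : ℝ) ^ (1 - δ) * n := by
      rw [← Real.rpow_add_one hN0.ne']
      congr 1
      ring
    rw [h4]
    exact mul_le_mul_of_nonneg_right hK hN0.le
  obtain ⟨Y, hYF, hAY, hG⟩ := hF3 A hAX (by omega) (by omega) (fun _ => by
    have : ((image₂ (fun a b : Γ => a + b) A A).card : ℝ) ≤ K * n := hAm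
    exact this.trans hK2)
  obtain ⟨hG1, hG2⟩ := hG 0
  refine ⟨hAX, hAn, Y, hYF, hAY, ?_⟩
  by_contra hcon
  rw [not_le] at hcon
  apply hAP
  obtain ⟨g1, g2⟩ := claim h3 n K Q (by omega) hQ hQK Y (image₂ (fun a b : Γ => a + b) A A) hAm
    hG1 hcon
  refine hP A _ (by omega) hAn hAm ?_ g1 g2
  generalize gd (fun a b : Γ => a + b) Y (image₂ (fun a b : Γ => a + b) A A) = G at hG2
  have h7 : (A.card : ℝ) = (A ∩ G).card + (A \ G).card := by
    exact_mod_cast (card_inter_add_card_sdiff A G).symm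
  rw [hAn] at h7
  have h8 : (n : ℝ) ≤ 2 * (A ∩ G).card := by linarith
  exact_mod_cast h8

/-- monotonicity of the number of translates -/
theorem mb_mono {C C' K Q : ℝ} (hC : C ≤ C') (hQ : 1 ≤ Q) : mb C K Q ≤ mb C' K Q := by
  unfold mb
  refine mul_le_mul_of_nonneg_left ?_ (by positivity)
  refine Real.rpow_le_rpow_of_exponent_le (by linarith) ?_
  have h1 : 0 ≤ Real.log (2 * Q) := Real.log_nonneg (by linarith)
  have h2 : 0 ≤ Real.log (1 + Real.log (2 * Q)) := Real.log_nonneg (by linarith)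
  exact mul_le_mul_of_nonneg_right hC (by linarith)

theorem dim_mono {C C' Q : ℝ} (hC : C ≤ C') (hQ : 1 ≤ Q) :
    C * Real.log (2 * Q) ≤ C' * Real.log (2 * Q) :=
  mul_le_mul_of_nonneg_right hC (Real.log_nonneg (by linarith))

theorem gapc_mono {Γ : Type} [AddCommGroup Γ] {D D' M M' : ℝ} (hD : D ≤ D') (hM : M ≤ M')
    {A : Finset Γ} (h : GAPC D M A) : GAPC D' M' A := by
  obtain ⟨d, v, L, T, h1, h2, h3, h4, h5⟩ := h
  exact ⟨d, v, L, T, h1.trans hD, h2, h3, h4.trans hM, h5⟩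

theorem ccp_mono {Γ : Type} [AddCommGroup Γ] {D D' M M' : ℝ} (hD : D ≤ D') (hM : M ≤ M')
    {A : Finset Γ} (h : CCP D M A) : CCP D' M' A := by
  obtain ⟨d, B, ψ, H, T, h1, h2, h3, h4, h5, h6⟩ := h
  exact ⟨d, B, ψ, H, T, h1.trans hD, h2, h3, h4, h5.trans hM, h6⟩

theorem pow_mono {C K Q : ℝ} (hC : 2 * Real.exp 2 ≤ C) (hQ : 1 ≤ Q) (hQK : Q ≤ K) (n : ℕ) :
    (2 * Real.exp 2 * K / Q) ^ n ≤ (C * K / Q) ^ n := by
  have hQ0 : 0 < Q := by linarith
  have hK0 : 0 < K := by linarith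
  refine pow_le_pow_left₀ (by positivity) ?_ n
  gcongr

theorem t_GAPA (h1 : S_CT) (h2 : S_CNT) (h3 : S_TRIG) (h4 : S_DETG) : S_GAPA := by
  obtain ⟨C, hC, hdet⟩ := h4
  refine ⟨max C (2 * Real.exp 2), hC.trans (le_max_left _ _), ?_⟩
  intro δ hδ
  obtain ⟨c, hc, n₀, hasm⟩ := asm h1 h2 h3 δ hδ
  refine ⟨c, hc, n₀, ?_⟩
  intro Γ _ _ htf X n K Q hn hX hQ hQK hK
  refine (hasm X n K Q hn hX hQ hQK hK (GAPC (max C (2 * Real.exp 2) * Real.log (2 * Q))
    (mb (max C (2 * Real.exp 2)) K Q)) ?_).trans (pow_mono (le_max_right _ _) hQ hQK n)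
  intro A G hn1 hA hAA hAG hGG hGK
  exact gapc_mono (dim_mono (le_max_left _ _) hQ) (mb_mono (le_max_left _ _) hQ)
    (hdet htf A G n K Q hn1 hA hQ hQK hAA hAG hGG hGK)

theorem t_PFRA (h1 : S_CT) (h2 : S_CNT) (h3 : S_TRIG) (h4 : S_DET) : S_PFRA := by
  obtain ⟨C, hC, hdet⟩ := h4
  refine ⟨max C (2 * Real.exp 2), hC.trans (le_max_left _ _), ?_⟩
  intro δ hδ
  obtain ⟨c, hc, n₀, hasm⟩ := asm h1 h2 h3 δ hδ
  refine ⟨c, hc, n₀, ?_⟩
  intro Γ _ _ X n K Q hn hX hQ hQK hK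
  refine (hasm X n K Q hn hX hQ hQK hK (CCP (max C (2 * Real.exp 2) * Real.log (2 * Q))
    (mb (max C (2 * Real.exp 2)) K Q)) ?_).trans (pow_mono (le_max_right _ _) hQ hQK n)
  intro A G hn1 hA hAA hAG hGG hGK
  exact ccp_mono (dim_mono (le_max_left _ _) hQ) (mb_mono (le_max_left _ _) hQ)
    (hdet A G n K Q hn1 hA hQ hQK hAA hAG hGG hGK)

end Pool.Agent.N953.SPC
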